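import Mathlib

namespace Pool.Agent.Results.MP_407f73_al.TransitiveDualNotFree

/-- A Mealy automaton with states `Q` and alphabet `A`. -/
structure Mealy (Q A : Type) where
  delta : Q → A → Q
  lam : Q → A → A

variable {Q A : Type}

/-- The action of a state on finite words. -/
def Mealy.run (M : Mealy Q A) : Q → List A → List A
  | _, [] => []
  | q, a :: w => M.lam q a :: Mealy.run M (M.delta q a) w

/-- The action of a state, as a transformation of the set of words. -/
def Mealy.act (M : Mealy Q A) (q : Q) : Function.End (List A) := M.run q

/-- The dual automaton, exchanging states and letters. -/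
def Mealy.dual (M : Mealy Q A) : Mealy A Q where
  delta a q := M.lam q a
  lam a q := M.delta q a

/-- The automaton semigroup, generated under composition by the maps of the states. -/
def Mealy.sgp (M : Mealy Q A) : Subsemigroup (Function.End (List A)) :=
  Subsemigroup.closure (Set.range M.act)

/-- Transitivity on the tree. -/
def Mealy.IsTransitive (M : Mealy Q A) : Prop :=
  ∀ n : ℕ, 1 ≤ n → ∀ u v : List A, u.length = n → v.length = n → ∃ s ∈ M.sgp, s u = v

/-- The automaton semigroup is freely generated by the maps of the states: distinct non-empty
words over the states act by distinct transformations. -/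
def Mealy.IsFreelyGenerated (M : Mealy Q A) : Prop :=
  ∀ w w' : List Q, w ≠ [] → w' ≠ [] → (w.map M.act).prod = (w'.map M.act).prod → w = w'

/-! ### The example -/

/-- Letters: a base bit and a fibre bit. -/
abbrev L : Type := Bool × Bool

/-- States: identity, replace the first letter, odometer on the base, replace the first letter
with base bit `1`. -/
inductive St : Type
  | i : St
  | q : L → St
  | t : St
  | w : L → St
  deriving DecidableEq, Fintype

def ex : Mealy St L where
  delta s a := match s with
    | St.i => St.i
    | St.q _ => St.i
    | St.t => if a.1 then St.t else St.i
    | St.w c => if a.1 then St.i else St.w c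
  lam s a := match s with
    | St.i => a
    | St.q c => c
    | St.t => (!a.1, a.2)
    | St.w c => if a.1 then c else a

theorem run_i (u : List L) : ex.run St.i u = u := by
  induction u with
  | nil => rfl
  | cons a u ih => show a :: ex.run St.i u = a :: u; rw [ih]

theorem run_q (c a : L) (u : List L) : ex.run (St.q c) (a :: u) = c :: u := by
  show c :: ex.run St.i u = c :: u
  rw [run_i]

theorem run_t_true (f : Bool) (u : List L) :
    ex.run St.t ((true, f) :: u) = (false, f) :: ex.run St.t u := rfl

theorem run_t_false (f : Bool) (u : List L) :
    ex.run St.t ((false, f) :: u) = (true, f) :: u := by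
  show (true, f) :: ex.run St.i u = _
  rw [run_i]

theorem run_w_true (c : L) (f : Bool) (u : List L) :
    ex.run (St.w c) ((true, f) :: u) = c :: u := by
  show c :: ex.run St.i u = _
  rw [run_i]

theorem run_w_false (c : L) (f : Bool) (u : List L) :
    ex.run (St.w c) ((false, f) :: u) = (false, f) :: ex.run (St.w c) u := rfl

/-- Reachability of words. -/
def Reach (u v : List L) : Prop := ∃ s ∈ ex.sgp, s u = v

theorem reach_state (s : St) (u : List L) : Reach u (ex.run s u) :=
  ⟨ex.act s, Subsemigroup.subset_closure ⟨s, rfl⟩, rfl⟩

theorem reach_trans {u v w : List L} (h1 : Reach u v) (h2 : Reach v w) : Reach u w := by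
  obtain ⟨s, hs, rfl⟩ := h1
  obtain ⟨t, ht, rfl⟩ := h2
  exact ⟨t * s, mul_mem ht hs, rfl⟩

theorem reach_refl (u : List L) : Reach u u := by
  have := reach_state St.i u
  rwa [run_i] at this

theorem reach_first (a b : L) (u : List L) : Reach (a :: u) (b :: u) := by
  have := reach_state (St.q b) (a :: u)
  rwa [run_q] at this

/-- One step deeper in the tree can be simulated, up to the first letter. -/
theorem reach_deep_state (a b : L) (s : St) (u : List L) : Reach (a :: u) (b :: ex.run s u) := by
  cases s with
  | i => rw [run_i]; exact reach_first a b u
  | q c =>
    cases u with
    | nil => exact reach_first a b []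
    | cons x u =>
      rw [run_q]
      obtain ⟨x1, x2⟩ := x
      cases x1 with
      | true =>
        refine reach_trans (reach_first a (false, false) _) (reach_trans ?_
          (reach_first (false, false) b _))
        have := reach_state (St.w c) ((false, false) :: (true, x2) :: u)
        rwa [run_w_false, run_w_true] at this
      | false =>
        refine reach_trans (reach_first a (true, false) _) (reach_trans ?_
          (reach_first (false, false) b _))
        have h1 := reach_state St.t ((true, false) :: (false, x2) :: u)
        rw [run_t_true, run_t_false] at h1
        refine reach_trans h1 ?_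
        have := reach_state (St.w c) ((false, false) :: (true, x2) :: u)
        rwa [run_w_false, run_w_true] at this
  | t =>
    refine reach_trans (reach_first a (true, false) _) (reach_trans ?_
      (reach_first (false, false) b _))
    have := reach_state St.t ((true, false) :: u)
    rwa [run_t_true] at this
  | w c =>
    refine reach_trans (reach_first a (false, false) _) (reach_trans ?_
      (reach_first (false, false) b _))
    have := reach_state (St.w c) ((false, false) :: u)
    rwa [run_w_false] at this

theorem reach_deep (a b : L) (u v : List L) (h : Reach u v) : Reach (a :: u) (b :: v) := by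
  obtain ⟨s, hs, rfl⟩ := h
  induction hs using Subsemigroup.closure_induction generalizing a b u with
  | mem x hx =>
    obtain ⟨s, rfl⟩ := hx
    exact reach_deep_state a b s u
  | mul x y hx hy h1 h2 =>
    exact reach_trans (h2 a b u) (h1 b b (y u))

theorem reach_all (u v : List L) (h : u.length = v.length) : Reach u v := by
  induction u generalizing v with
  | nil =>
    have : v = [] := List.length_eq_zero_iff.mp h.symm
    rw [this]
    exact reach_refl []
  | cons a u ih =>
    cases v with
    | nil => simp at h
    | cons b v =>
      apply reach_deep
      apply ih
      simpa using h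

theorem dual_eq (f g b : Bool) (w : List St) : ex.dual.run (b, f) w = ex.dual.run (b, g) w := by
  induction w generalizing f g b with
  | nil => rfl
  | cons s w ih =>
    show ex.delta s (b, f) :: ex.dual.run (ex.lam s (b, f)) w =
      ex.delta s (b, g) :: ex.dual.run (ex.lam s (b, g)) w
    have h1 : ex.delta s (b, f) = ex.delta s (b, g) := by
      cases s <;> rfl
    rw [h1]
    congr 1
    cases s with
    | i => exact ih f g b
    | q c => rfl
    | t => exact ih f g (!b)
    | w c =>
      cases b with
      | true => rfl
      | false => exact ih f g false

theorem result : ∃ (Q A : Type) (_ : Fintype Q) (_ : Fintype A) (M : Mealy Q A),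
    Nonempty Q ∧ 2 ≤ Fintype.card A ∧ M.IsTransitive ∧ ¬ M.dual.IsFreelyGenerated := by
  refine ⟨St, L, inferInstance, inferInstance, ex, ⟨St.i⟩, by decide, ?_, ?_⟩
  · intro n _ u v hu hv
    exact reach_all u v (hu.trans hv.symm)
  · intro h
    have := h [(false, false)] [(false, true)] (by simp) (by simp) (by
      simp only [List.map_cons, List.map_nil, List.prod_cons, List.prod_nil, mul_one]
      funext w
      exact dual_eq false true false w)
    simp at this

end Pool.Agent.Results.MP_407f73_al.TransitiveDualNotFree
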